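import Mathlib

/-!
# An alternating form on polynomial tuples in positive characteristic

Let `p` be a natural number which is zero in `K` (below: a power of the characteristic).
`Phi p m y` is the coefficient of `(x_0 ⋯ x_{m-1})^p` in `y_m * det (x_j ∂_j y_i)`, that is, the
coefficient of `(x_0 ⋯ x_{m-1})^{p-1}` in the top form `y_m dy_0 ∧ ⋯ ∧ dy_{m-1}`.
-/

set_option autoImplicit false

namespace Pool.Agent.H50R3.Flux

open MvPolynomial

variable {K : Type*} [Field K] {m : ℕ}

/-- the Euler derivation `x_j ∂_j` -/
noncomputable def th (j : Fin m) (f : MvPolynomial (Fin m) K) : MvPolynomial (Fin m) K :=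
  X j * pderiv j f

theorem th_add (j : Fin m) (f g : MvPolynomial (Fin m) K) : th j (f + g) = th j f + th j g := by
  unfold th; rw [map_add, mul_add]

theorem th_smul (j : Fin m) (c : K) (f : MvPolynomial (Fin m) K) : th j (c • f) = c • th j f := by
  unfold th; rw [Derivation.map_smul, mul_smul_comm]

theorem th_mul (j : Fin m) (f g : MvPolynomial (Fin m) K) :
    th j (f * g) = f * th j g + g * th j f := by
  unfold th; rw [Derivation.leibniz]; simp only [smul_eq_mul]; ring

theorem th_C (j : Fin m) (c : K) : th j (C c) = 0 := by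
  unfold th; rw [pderiv_C, mul_zero]

theorem th_monomial (j : Fin m) (a : Fin m →₀ ℕ) :
    th j (monomial a (1 : K)) = C ((a j : ℕ) : K) * monomial a 1 := by
  unfold th
  rw [X_mul_pderiv_monomial, ← smul_eq_C_mul, ← Nat.cast_smul_eq_nsmul K]

/-- the matrix `(x_j ∂_j g_i)` -/
noncomputable def jm (g : Fin m → MvPolynomial (Fin m) K) :
    Matrix (Fin m) (Fin m) (MvPolynomial (Fin m) K) := fun i j => th j (g i)

/-- the Jacobian determinant times `x_0 ⋯ x_{m-1}` -/
noncomputable def jac (g : Fin m → MvPolynomial (Fin m) K) : MvPolynomial (Fin m) K :=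
  (jm g).det

theorem jm_update (g : Fin m → MvPolynomial (Fin m) K) (k : Fin m) (a : MvPolynomial (Fin m) K) :
    jm (Function.update g k a) = (jm g).updateRow k (fun j => th j a) := by
  funext i j
  by_cases h : i = k
  · subst h; simp [jm]
  · simp [jm, h]

theorem jac_add (g : Fin m → MvPolynomial (Fin m) K) (k : Fin m)
    (a b : MvPolynomial (Fin m) K) :
    jac (Function.update g k (a + b))
      = jac (Function.update g k a) + jac (Function.update g k b) := by
  unfold jac
  rw [jm_update, jm_update, jm_update, ← Matrix.det_updateRow_add]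
  congr 2
  funext j
  exact th_add j a b

theorem jac_smul (g : Fin m → MvPolynomial (Fin m) K) (k : Fin m)
    (c : K) (a : MvPolynomial (Fin m) K) :
    jac (Function.update g k (c • a)) = c • jac (Function.update g k a) := by
  unfold jac
  rw [jm_update, jm_update]
  have : (fun j => th j (c • a)) = (C c : MvPolynomial (Fin m) K) • fun j => th j a := by
    funext j
    rw [th_smul, Pi.smul_apply, smul_eq_mul, smul_eq_C_mul]
  rw [this, Matrix.det_updateRow_smul, smul_eq_C_mul]

/-- the exponent `(p, …, p)` -/
noncomputable def pp (m p : ℕ) : Fin m →₀ ℕ := Finsupp.equivFunOnFinite.symm fun _ => p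

/-- the coefficient of `(x_0 ⋯ x_{m-1})^p` of the Jacobian determinant as a multilinear map -/
noncomputable def jacM (K : Type*) [Field K] (m p : ℕ) :
    MultilinearMap K (fun _ : Fin m => MvPolynomial (Fin m) K) K where
  toFun g := coeff (pp m p) (jac g)
  map_update_add' := by
    intro d g i a b
    rw [Subsingleton.elim d (instDecidableEqFin m), jac_add, coeff_add]
  map_update_smul' := by
    intro d g i c a
    rw [Subsingleton.elim d (instDecidableEqFin m), jac_smul, coeff_smul]

/-- Stokes: in characteristic `p` the coefficient of `(x_0 ⋯ x_{m-1})^{p-1}` of a Jacobian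
determinant vanishes. -/
theorem stokes (p : ℕ) (hpK : (p : K) = 0) (hm : 0 < m) (g : Fin m → MvPolynomial (Fin m) K) :
    coeff (pp m p) (jac g) = 0 := by
  have h : jacM K m p = 0 := by
    apply Module.Basis.ext_multilinear (fun _ => basisMonomials (Fin m) K)
    intro v
    show coeff (pp m p) (jac fun i => basisMonomials (Fin m) K (v i)) = 0
    have h1 : jac (fun i => basisMonomials (Fin m) K (v i))
        = monomial (∑ i, v i) ((Matrix.of fun i j => ((v i j : ℕ) : K)).det) := by
      unfold jac
      have h2 : jm (fun i => basisMonomials (Fin m) K (v i))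
          = Matrix.of fun i j => monomial (v i) (1 : K) *
            ((Matrix.of fun i j => ((v i j : ℕ) : K)).map C) i j := by
        funext i j
        simp only [jm, coe_basisMonomials, th_monomial]
        rw [mul_comm]
        rfl
      rw [h2, Matrix.det_mul_column]
      have h3 : (∏ i, monomial (v i) (1 : K)) = monomial (∑ i, v i) (1 : K) := by
        rw [MvPolynomial.monomial_sum_one]
      rw [h3, ← RingHom.mapMatrix_apply, ← RingHom.map_det, mul_comm, C_mul_monomial, mul_one]
    rw [h1, coeff_monomial]
    split_ifs with h4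
    · apply Matrix.exists_vecMul_eq_zero_iff.mp
      refine ⟨fun _ => 1, ?_, ?_⟩
      · intro h5
        have := congrFun h5 ⟨0, hm⟩
        simp at this
      · funext j
        simp only [Matrix.vecMul, dotProduct, one_mul, Matrix.of_apply, Pi.zero_apply]
        rw [← Nat.cast_sum]
        have h6 : ∑ i, v i j = p := by
          have := DFunLike.congr_fun h4 j
          rw [Finsupp.finsetSum_apply] at this
          rw [this]
          rfl
        rw [h6, hpK]
    · rfl
  exact congrArg (fun f => f g) h

/-- If `dF` is a combination of the `dy_i`, `i ≠ k`, then `F dy_0 ⋯ dy_{m-1}` has vanishing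
coefficient. -/
theorem exact_term (p : ℕ) (hpK : (p : K) = 0) (g : Fin m → MvPolynomial (Fin m) K) (k : Fin m)
    (F : MvPolynomial (Fin m) K) (c : Fin m → MvPolynomial (Fin m) K) (hc : c k = 0)
    (h : ∀ j, th j F = ∑ i, c i * th j (g i)) :
    coeff (pp m p) (F * jac g) = 0 := by
  have h1 : jac (Function.update g k (F * g k)) = F * jac g := by
    unfold jac
    rw [jm_update]
    have h2 : (fun j => th j (F * g k))
        = ∑ i, (if i = k then F else g k * c i) • (jm g) i := by
      funext j
      rw [th_mul, h, Finset.sum_apply]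
      simp only [Pi.smul_apply, smul_eq_mul, jm]
      rw [← Finset.add_sum_erase _ (fun i => c i * th j (g i)) (Finset.mem_univ k),
        ← Finset.add_sum_erase _ (fun i => (if i = k then F else g k * c i) * th j (g i))
        (Finset.mem_univ k), if_pos rfl, hc, zero_mul, zero_add, Finset.mul_sum]
      congr 1
      refine Finset.sum_congr rfl fun i hi => ?_
      rw [if_neg (Finset.ne_of_mem_erase hi)]
      ring
    rw [h2, Matrix.det_updateRow_sum, if_pos rfl, smul_eq_mul]
  rw [← h1]
  exact stokes p hpK (Fin.pos k) _

theorem upd_last (y : Fin (m + 1) → MvPolynomial (Fin m) K) (a : MvPolynomial (Fin m) K) :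
    (fun i : Fin m => Function.update y (Fin.last m) a i.castSucc) = fun i => y i.castSucc := by
  funext i; exact Function.update_of_ne (Fin.castSucc_lt_last i).ne _ _

theorem upd_cast (y : Fin (m + 1) → MvPolynomial (Fin m) K) (k : Fin m)
    (a : MvPolynomial (Fin m) K) :
    (fun i : Fin m => Function.update y k.castSucc a i.castSucc)
      = Function.update (fun i : Fin m => y i.castSucc) k a := by
  funext i
  by_cases hi : i = k
  · subst hi; simp
  · rw [Function.update_of_ne hi, Function.update_of_ne]
    exact fun h => hi (Fin.castSucc_injective m h)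

theorem upd_cast_last (y : Fin (m + 1) → MvPolynomial (Fin m) K) (k : Fin m)
    (a : MvPolynomial (Fin m) K) :
    Function.update y k.castSucc a (Fin.last m) = y (Fin.last m) :=
  Function.update_of_ne (Fin.castSucc_lt_last k).ne' _ _

/-- the underlying function of `Phi` -/
noncomputable def PhiF (p : ℕ) (y : Fin (m + 1) → MvPolynomial (Fin m) K) : K :=
  coeff (pp m p) (y (Fin.last m) * jac fun i => y i.castSucc)

theorem PhiF_last (p : ℕ) (y : Fin (m + 1) → MvPolynomial (Fin m) K)
    (a : MvPolynomial (Fin m) K) : PhiF p (Function.update y (Fin.last m) a)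
      = coeff (pp m p) (a * jac fun i => y i.castSucc) := by
  unfold PhiF; rw [upd_last, Function.update_self]

theorem PhiF_cast (p : ℕ) (y : Fin (m + 1) → MvPolynomial (Fin m) K) (k : Fin m)
    (a : MvPolynomial (Fin m) K) : PhiF p (Function.update y k.castSucc a)
      = coeff (pp m p) (y (Fin.last m) *
        jac (Function.update (fun i : Fin m => y i.castSucc) k a)) := by
  unfold PhiF; rw [upd_cast, upd_cast_last]

/-- the alternating form -/
noncomputable def Phi (K : Type*) [Field K] (m p : ℕ) (hpK : (p : K) = 0) (hm : 2 ≤ m) :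
    (MvPolynomial (Fin m) K) [⋀^Fin (m + 1)]→ₗ[K] K where
  toFun y := PhiF p y
  map_update_add' := by
    intro d y i a b
    rw [Subsingleton.elim d (instDecidableEqFin (m + 1))]
    refine Fin.lastCases ?_ (fun k => ?_) i
    · rw [PhiF_last, PhiF_last, PhiF_last, add_mul, coeff_add]
    · rw [PhiF_cast, PhiF_cast, PhiF_cast, jac_add, mul_add, coeff_add]
  map_update_smul' := by
    intro d y i c a
    rw [Subsingleton.elim d (instDecidableEqFin (m + 1))]
    refine Fin.lastCases ?_ (fun k => ?_) i
    · rw [PhiF_last, PhiF_last, smul_mul_assoc, coeff_smul]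
    · rw [PhiF_cast, PhiF_cast, jac_smul, mul_smul_comm, coeff_smul]
  map_eq_zero_of_eq' := by
    have main : ∀ (y : Fin (m + 1) → MvPolynomial (Fin m) K) (k : Fin m),
        y (Fin.last m) = y k.castSucc →
        coeff (pp m p) (y (Fin.last m) * jac fun i => y i.castSucc) = 0 := by
      intro y k h
      obtain ⟨l, hl⟩ : ∃ l : Fin m, l ≠ k := by
        by_cases hk : k = ⟨0, by omega⟩
        · exact ⟨⟨1, by omega⟩, by rw [hk]; simp⟩
        · exact ⟨⟨0, by omega⟩, fun h => hk h.symm⟩
      apply exact_term p hpK _ l _ (fun i => if i = k then 1 else 0) (if_neg hl)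
      intro j
      simp [h]
    intro y i j hij hne
    revert hij hne
    refine Fin.lastCases ?_ (fun k => ?_) i <;> refine Fin.lastCases ?_ (fun l => ?_) j
    · intro _ h; exact absurd rfl h
    · intro h _; exact main y l h
    · intro h _; exact main y k h.symm
    · intro h hne
      have : jac (fun i : Fin m => y i.castSucc) = 0 := by
        unfold jac
        apply Matrix.det_zero_of_row_eq (i := k) (j := l) (fun h' => hne (by rw [h']))
        funext s
        simp only [jm]
        rw [h]
      show coeff (pp m p) (y (Fin.last m) * jac fun i => y i.castSucc) = 0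
      rw [this, mul_zero, coeff_zero]

theorem Phi_apply (K : Type*) [Field K] (m p : ℕ) (hpK : (p : K) = 0) (hm : 2 ≤ m)
    (y : Fin (m + 1) → MvPolynomial (Fin m) K) :
    Phi K m p hpK hm y = coeff (pp m p) (y (Fin.last m) * jac fun i => y i.castSucc) := rfl

/-- linear substitutions multiply the form by the determinant -/
theorem Phi_linear (p : ℕ) (hpK : (p : K) = 0) (hm : 2 ≤ m)
    (y : Fin (m + 1) → MvPolynomial (Fin m) K) (A : Matrix (Fin (m + 1)) (Fin (m + 1)) K) :
    Phi K m p hpK hm (fun i => ∑ j, A i j • y j) = A.det * Phi K m p hpK hm y := by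
  let L : (Fin (m + 1) → K) →ₗ[K] MvPolynomial (Fin m) K := Fintype.linearCombination K y
  have h1 := AlternatingMap.eq_smul_basis_det (Pi.basisFun K (Fin (m + 1)))
    ((Phi K m p hpK hm).compLinearMap L)
  have h2 := congrArg (fun f => f A) h1
  simp only [AlternatingMap.compLinearMap_apply, AlternatingMap.smul_apply, smul_eq_mul] at h2
  have h3 : (Pi.basisFun K (Fin (m + 1))).det A = A.det := by
    rw [Pi.basisFun_det]; rfl
  rw [h3] at h2
  have h4 : (fun i => L (A i)) = fun i => ∑ j, A i j • y j := by
    funext i; exact Fintype.linearCombination_apply K y (A i)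
  have h5 : (fun i => L (Pi.basisFun K (Fin (m + 1)) i)) = y := by
    funext i
    show Fintype.linearCombination K y (Pi.basisFun K (Fin (m + 1)) i) = y i
    rw [Pi.basisFun_apply, Fintype.linearCombination_apply_single, one_smul]
  have h6 : Phi K m p hpK hm (fun i => L (A i)) = Phi K m p hpK hm (fun i =>
      L (Pi.basisFun K (Fin (m + 1)) i)) * A.det := h2
  rw [h4, h5] at h6
  rw [h6, mul_comm]

/-- translations do not change the form -/
theorem Phi_translate (p : ℕ) (hpK : (p : K) = 0) (hm : 2 ≤ m)
    (y : Fin (m + 1) → MvPolynomial (Fin m) K) (b : Fin (m + 1) → K) :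
    Phi K m p hpK hm (fun i => y i + C (b i)) = Phi K m p hpK hm y := by
  rw [Phi_apply, Phi_apply]
  have h : jac (fun i : Fin m => y i.castSucc + C (b i.castSucc))
      = jac fun i : Fin m => y i.castSucc := by
    unfold jac
    congr 1
    funext i j
    simp only [jm, th_add, th_C, add_zero]
  rw [h, add_mul, coeff_add]
  have : coeff (pp m p) (C (b (Fin.last m)) * jac fun i : Fin m => y i.castSucc) = 0 := by
    apply exact_term p hpK _ (⟨0, by omega⟩ : Fin m) _ (fun _ => 0) rfl
    intro j
    rw [th_C]
    simp
  rw [this, add_zero]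

/-- adding to the last entry a multiple of the product of two other entries does not change the
form, provided that there is a third other entry -/
theorem Phi_shear (p : ℕ) (hpK : (p : K) = 0) (hm : 2 ≤ m)
    (y : Fin (m + 1) → MvPolynomial (Fin m) K) (k l s : Fin m) (hk : k ≠ s) (hl : l ≠ s)
    (c : K) :
    Phi K m p hpK hm (Function.update y (Fin.last m) (y (Fin.last m) + c •
      (y k.castSucc * y l.castSucc))) = Phi K m p hpK hm y := by
  rw [Phi_apply, Phi_apply]
  have h : (fun i : Fin m => Function.update y (Fin.last m) (y (Fin.last m) + c •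
      (y k.castSucc * y l.castSucc)) i.castSucc) = fun i => y i.castSucc := by
    funext i; exact Function.update_of_ne (Fin.castSucc_lt_last i).ne _ _
  rw [h, Function.update_self, add_mul, coeff_add, smul_mul_assoc, coeff_smul]
  have : coeff (pp m p) (y k.castSucc * y l.castSucc * jac fun i : Fin m => y i.castSucc) = 0 := by
    apply exact_term p hpK _ s _ (fun i => (if i = k then y l.castSucc else 0) +
      if i = l then y k.castSucc else 0)
    · simp [hk.symm, hl.symm]
    · intro j
      rw [th_mul]
      simp only [add_mul, Finset.sum_add_distrib, ite_mul, zero_mul, Finset.sum_ite_eq',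
        Finset.mem_univ, if_true]
      ring
  rw [this, smul_zero, add_zero]

/-- the value at the standard tuple with last entry `(x_0 ⋯ x_{m-1})^{p-1}` -/
theorem Phi_std (p : ℕ) (hpK : (p : K) = 0) (hm : 2 ≤ m) (hp : 0 < p) :
    Phi K m p hpK hm (Fin.snoc (fun i : Fin m => (X i : MvPolynomial (Fin m) K))
      ((∏ i : Fin m, X i) ^ (p - 1))) = 1 := by
  rw [Phi_apply]
  simp only [Fin.snoc_last, Fin.snoc_castSucc]
  have h : jac (fun i : Fin m => (X i : MvPolynomial (Fin m) K)) = ∏ i : Fin m, X i := by
    unfold jac
    have : jm (fun i : Fin m => (X i : MvPolynomial (Fin m) K)) = Matrix.diagonal X := by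
      funext i j
      simp only [jm, th, Matrix.diagonal_apply]
      by_cases h : i = j
      · subst h; simp
      · rw [pderiv_X_of_ne h, mul_zero, if_neg h]
    rw [this, Matrix.det_diagonal]
  rw [h, ← pow_succ, Nat.sub_add_cancel hp]
  have h2 : (∏ i : Fin m, (X i : MvPolynomial (Fin m) K)) ^ p = monomial (pp m p) 1 := by
    rw [← Finset.prod_pow, MvPolynomial.monomial_eq, C_1, one_mul, Finsupp.prod_fintype]
    · rfl
    · intro i; exact pow_zero _
  rw [h2, coeff_monomial, if_pos rfl]

/-- the value at the standard tuple with last entry `0` -/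
theorem Phi_zero (p : ℕ) (hpK : (p : K) = 0) (hm : 2 ≤ m) (f : Fin m → MvPolynomial (Fin m) K) :
    Phi K m p hpK hm (Fin.snoc f 0) = 0 := by
  rw [Phi_apply]
  simp

end Pool.Agent.H50R3.Flux
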