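import Mathlib
import Pool.Agent.H50R3.Flux

/-!
# A Cartier step for Jacobian determinants of polynomials in characteristic `p`
-/

set_option autoImplicit false

namespace Pool.Agent.H50R3.Cartier

open MvPolynomial Pool.Agent.H50R3.Flux

/-! ### multilinear maps vanishing on spans -/

theorem multi_span {K V : Type*} [Field K] [AddCommGroup V] [Module K V] {m : ℕ}
    (f : MultilinearMap K (fun _ : Fin m => V) K) (T : Fin m → Set V)
    (h : ∀ r : Fin m → V, (∀ i, r i ∈ T i) → f r = 0) (r : Fin m → V)
    (hr : ∀ i, r i ∈ Submodule.span K (T i)) : f r = 0 := by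
  have key : ∀ s : Finset (Fin m), ∀ r : Fin m → V, (∀ i ∈ s, r i ∈ Submodule.span K (T i)) →
      (∀ i, i ∉ s → r i ∈ T i) → f r = 0 := by
    intro s
    induction s using Finset.induction_on with
    | empty => intro r _ h2; exact h r (fun i => h2 i (by simp))
    | insert a s ha ih =>
      intro r h1 h2
      have h3 : ∀ v ∈ Submodule.span K (T a), f (Function.update r a v) = 0 := by
        intro v hv
        induction hv using Submodule.span_induction with
        | mem v hv =>
          apply ih
          · intro i hi
            have hia : i ≠ a := by rintro rfl; exact ha hi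
            rw [Function.update_of_ne hia]
            exact h1 i (Finset.mem_insert_of_mem hi)
          · intro i hi
            by_cases hia : i = a
            · subst hia; rwa [Function.update_self]
            · rw [Function.update_of_ne hia]
              exact h2 i (by simp [hia, hi])
        | zero => exact f.map_update_zero r a
        | add x y _ _ hx hy => rw [f.map_update_add, hx, hy, add_zero]
        | smul c x _ hx => rw [f.map_update_smul, hx, smul_zero]
      have h4 := h3 (r a) (h1 a (Finset.mem_insert_self a s))
      rwa [Function.update_eq_self] at h4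
  exact key Finset.univ r (fun i _ => hr i) (fun i hi => absurd (Finset.mem_univ i) hi)

section

variable {K : Type*} [Field K] {m : ℕ}

/-- rows, i.e. logarithmic one-forms -/
abbrev Row (K : Type*) [Field K] (m : ℕ) : Type _ := Fin m → MvPolynomial (Fin m) K

/-- the coefficient of the determinant at the exponent `q` -/
noncomputable def cd (K : Type*) [Field K] (m : ℕ) (q : Fin m →₀ ℕ) :
    MultilinearMap K (fun _ : Fin m => Row K m) K :=
  (lcoeff K q).compMultilinearMap
    ((Matrix.detRowAlternating (R := MvPolynomial (Fin m) K)).toMultilinearMap.restrictScalars K)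

theorem cd_apply (q : Fin m →₀ ℕ) (r : Fin m → Row K m) :
    cd K m q r = coeff q (Matrix.det (Matrix.of r)) := rfl

/-- homogeneous closed logarithmic one-forms -/
def closedGen (K : Type*) [Field K] (m : ℕ) : Set (Row K m) :=
  {r | ∃ (u : Fin m →₀ ℕ) (a : Fin m → K), (∀ j l, a j * (u l : K) = a l * (u j : K)) ∧
    r = fun j => monomial u (a j)}

/-- closed logarithmic one-forms -/
noncomputable def closedRow (K : Type*) [Field K] (m : ℕ) : Submodule K (Row K m) :=
  Submodule.span K (closedGen K m)

/-- homogeneous exact one-forms -/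
def exactGen (K : Type*) [Field K] (m : ℕ) : Set (Row K m) :=
  {r | ∃ u : Fin m →₀ ℕ, r = fun j => monomial u (u j : K)}

theorem exactGen_sub : exactGen K m ⊆ closedGen K m := by
  rintro r ⟨u, rfl⟩
  exact ⟨u, fun j => (u j : K), fun j l => mul_comm _ _, rfl⟩

theorem th_mem (g : MvPolynomial (Fin m) K) :
    (fun j => th j g) ∈ Submodule.span K (exactGen K m) := by
  induction g using MvPolynomial.induction_on' with
  | monomial u a =>
    have h : (fun j => th j (monomial u a)) = a • fun j => monomial u (u j : K) := by
      funext j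
      have : monomial u a = a • monomial u (1 : K) := by rw [smul_monomial, smul_eq_mul, mul_one]
      rw [this, th_smul, th_monomial, Pi.smul_apply, C_mul_monomial, mul_one]
    rw [h]
    exact Submodule.smul_mem _ _ (Submodule.subset_span ⟨u, rfl⟩)
  | add p q hp hq =>
    have h : (fun j => th j (p + q)) = (fun j => th j p) + fun j => th j q := by
      funext j; exact th_add j p q
    rw [h]
    exact add_mem hp hq

/-- a determinant of homogeneous closed forms one of which is exact has no coefficient at
exponents divisible by `p` -/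
theorem det_zero_gen (q : Fin m →₀ ℕ) (hq : ∀ j, ((q j : ℕ) : K) = 0) (k : Fin m)
    (r : Fin m → Row K m) (hk : r k ∈ exactGen K m) (hr : ∀ i, r i ∈ closedGen K m) :
    cd K m q r = 0 := by
  choose u a ha hra using hr
  obtain ⟨w, hw⟩ := hk
  rw [cd_apply]
  have h1 : Matrix.of r = Matrix.of fun i j => monomial (u i) (1 : K) *
      ((Matrix.of a).map C) i j := by
    funext i j
    rw [Matrix.of_apply, hra i, Matrix.of_apply, Matrix.map_apply, Matrix.of_apply, mul_comm,
      C_mul_monomial, mul_one]
  rw [h1, Matrix.det_mul_column]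
  have h3 : (∏ i, monomial (u i) (1 : K)) = monomial (∑ i, u i) (1 : K) := by
    rw [MvPolynomial.monomial_sum_one]
  rw [h3, ← RingHom.mapMatrix_apply, ← RingHom.map_det, mul_comm, C_mul_monomial, mul_one,
    coeff_monomial]
  split_ifs with h4
  · by_cases hz : ∃ i, a i = 0
    · obtain ⟨i, hi⟩ := hz
      exact Matrix.det_eq_zero_of_row_eq_zero i (fun j => by rw [Matrix.of_apply, hi]; rfl)
    · push Not at hz
      have hnz : ∀ i, ∃ j, a i j ≠ 0 := by
        intro i
        by_contra h
        push Not at h
        exact hz i (funext h)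
      choose e he using hnz
      -- `u i = t i • a i` in `K`
      have ht : ∀ i l, ((u i l : ℕ) : K) = ((u i (e i) : ℕ) : K) / a i (e i) * a i l := by
        intro i l
        rw [div_mul_eq_mul_div, eq_div_iff (he i), mul_comm, ha i (e i) l, mul_comm]
      -- the row `k`
      have hwk : ∀ j, monomial (u k) (a k j) = monomial w ((w j : ℕ) : K) := by
        intro j
        have := congrFun ((hra k).symm.trans hw) j
        exact this
      have huw : u k = w := by
        have h5 := hwk (e k)
        rw [monomial_eq_monomial_iff] at h5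
        rcases h5 with h5 | h5
        · exact h5.1
        · exact absurd h5.1 (he k)
      have haw : ∀ j, a k j = ((u k j : ℕ) : K) := by
        intro j
        have h5 := hwk j
        rw [huw] at h5
        rw [huw]
        simpa [coeff_monomial] using congrArg (coeff w) h5
      apply Matrix.exists_vecMul_eq_zero_iff.mp
      refine ⟨fun i => ((u i (e i) : ℕ) : K) / a i (e i), ?_, ?_⟩
      · intro h5
        have h6 := congrFun h5 k
        simp only [Pi.zero_apply] at h6
        rw [← haw, div_self (he k)] at h6
        exact one_ne_zero h6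
      · funext j
        simp only [Matrix.vecMul, dotProduct, Matrix.of_apply, Pi.zero_apply]
        rw [Finset.sum_congr rfl fun i _ => (ht i j).symm, ← Nat.cast_sum]
        have h6 : ∑ i, u i j = q j := by
          rw [← Finsupp.finsetSum_apply, h4]
        rw [h6, hq j]
  · rfl

/-- a determinant of closed forms one of which is exact has no coefficient at exponents divisible
by `p` -/
theorem det_zero (q : Fin m →₀ ℕ) (hq : ∀ j, ((q j : ℕ) : K) = 0) (k : Fin m)
    (r : Fin m → Row K m) (g : MvPolynomial (Fin m) K) (hk : r k = fun j => th j g)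
    (hr : ∀ i, r i ∈ closedRow K m) : cd K m q r = 0 := by
  apply multi_span (cd K m q) (fun i => if i = k then exactGen K m else closedGen K m)
  · intro s hs
    apply det_zero_gen q hq k s
    · simpa using hs k
    · intro i
      have := hs i
      by_cases hi : i = k
      · rw [if_pos hi] at this; exact exactGen_sub this
      · rwa [if_neg hi] at this
  · intro i
    by_cases hi : i = k
    · subst hi
      simp only [if_true]
      rw [hk]
      exact th_mem g
    · simp only [if_neg hi]
      exact hr i

/-- closed forms may be changed by exact ones -/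
theorem replace (q : Fin m →₀ ℕ) (hq : ∀ j, ((q j : ℕ) : K) = 0)
    (r s : Fin m → Row K m) (hr : ∀ i, r i ∈ closedRow K m) (hs : ∀ i, s i ∈ closedRow K m)
    (h : ∀ i, ∃ g, r i = s i + fun j => th j g) : cd K m q r = cd K m q s := by
  have key : ∀ t : Finset (Fin m), cd K m q (fun i => if i ∈ t then r i else s i)
      = cd K m q s := by
    intro t
    induction t using Finset.induction_on with
    | empty => simp
    | insert a t ha ih =>
      obtain ⟨g, hg⟩ := h a
      have h1 : (fun i => if i ∈ insert a t then r i else s i)
          = Function.update (fun i => if i ∈ t then r i else s i) a (s a + fun j => th j g) := by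
        funext i
        by_cases hi : i = a
        · subst hi
          rw [Function.update_self]
          simp [hg]
        · rw [Function.update_of_ne hi]
          simp [hi]
      have h2 : Function.update (fun i => if i ∈ t then r i else s i) a (s a)
          = fun i => if i ∈ t then r i else s i := by
        funext i
        by_cases hi : i = a
        · subst hi
          rw [Function.update_self]
          simp [ha]
        · rw [Function.update_of_ne hi]
      rw [h1, MultilinearMap.map_update_add, h2, ih]
      have h3 : cd K m q (Function.update (fun i => if i ∈ t then r i else s i) a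
          fun j => th j g) = 0 := by
        apply det_zero q hq a _ g (Function.update_self _ _ _)
        intro i
        by_cases hi : i = a
        · subst hi
          rw [Function.update_self]
          exact Submodule.span_mono exactGen_sub (th_mem g)
        · rw [Function.update_of_ne hi]
          by_cases hit : i ∈ t
          · rw [if_pos hit]; exact hr i
          · rw [if_neg hit]; exact hs i
      rw [h3, add_zero]
  have := key Finset.univ
  simpa using this

end

/-! ### `y^{p-1} dy` and `(dy)^p` -/

section

variable {K : Type*} [Field K] {m : ℕ} (p : ℕ) [Fact p.Prime] [CharP K p]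

theorem choose_div (i : ℕ) (h1 : 1 ≤ i) (h2 : i < p) :
    (p.choose i / p) * i = (p - 1).choose (i - 1) := by
  have hp := (Fact.out : p.Prime)
  have hd : p ∣ p.choose i := hp.dvd_choose_self (by omega) h2
  apply Nat.eq_of_mul_eq_mul_left hp.pos
  rw [← mul_assoc, Nat.mul_div_cancel' hd]
  obtain ⟨P, rfl⟩ : ∃ P, p = P + 1 := ⟨p - 1, by omega⟩
  obtain ⟨j, rfl⟩ : ∃ j, i = j + 1 := ⟨i - 1, by omega⟩
  simp only [Nat.add_sub_cancel]
  rw [Nat.add_one_mul_choose_eq]

theorem choose_div' (i : ℕ) (h1 : 1 ≤ i) (h2 : i < p) :
    (p.choose i / p) * (p - i) = (p - 1).choose i := by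
  have hp := (Fact.out : p.Prime)
  have h := choose_div p (p - i) (by omega) (by omega)
  rw [Nat.choose_symm h2.le] at h
  rw [h]
  have : p - i - 1 = (p - 1) - i := by omega
  rw [this, Nat.choose_symm (by omega)]

theorem th_pow (j : Fin m) (f : MvPolynomial (Fin m) K) (n : ℕ) :
    th j (f ^ n) = (n : MvPolynomial (Fin m) K) * f ^ (n - 1) * th j f := by
  unfold th
  rw [Derivation.leibniz_pow]
  simp only [smul_eq_mul, nsmul_eq_mul]
  ring

theorem th_pow_p (j : Fin m) (f : MvPolynomial (Fin m) K) : th j (f ^ p) = 0 := by
  rw [th_pow]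
  have : ((p : ℕ) : MvPolynomial (Fin m) K) = 0 := CharP.cast_eq_zero _ p
  rw [this, zero_mul, zero_mul]

theorem th_sum (j : Fin m) {ι : Type*} (s : Finset ι) (f : ι → MvPolynomial (Fin m) K) :
    th j (∑ i ∈ s, f i) = ∑ i ∈ s, th j (f i) := by
  unfold th; rw [map_sum, Finset.mul_sum]

theorem th_prod (j : Fin m) {ι : Type*} [DecidableEq ι] (s : Finset ι)
    (f : ι → MvPolynomial (Fin m) K) :
    th j (∏ i ∈ s, f i) = ∑ i ∈ s, (∏ t ∈ s.erase i, f t) * th j (f i) := by
  induction s using Finset.induction_on with
  | empty =>
    rw [Finset.prod_empty, Finset.sum_empty]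
    have := th_C (K := K) j (1 : K)
    rwa [C_1] at this
  | insert a s ha ih =>
    rw [Finset.prod_insert ha, th_mul, ih, Finset.sum_insert ha, Finset.erase_insert ha,
      Finset.mul_sum, add_comm]
    congr 1
    refine Finset.sum_congr rfl fun i hi => ?_
    have hia : i ≠ a := by rintro rfl; exact ha hi
    rw [Finset.erase_insert_of_ne hia.symm, Finset.prod_insert (fun h =>
      ha (Finset.mem_of_mem_erase h))]
    ring

/-- the polynomial `((a + b)^p - a^p - b^p) / p` -/
noncomputable def wit (a b : MvPolynomial (Fin m) K) : MvPolynomial (Fin m) K :=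
  ∑ i ∈ Finset.Ico 1 p, ((p.choose i / p : ℕ) : MvPolynomial (Fin m) K) * (a ^ i * b ^ (p - i))

theorem th_wit (j : Fin m) (a b : MvPolynomial (Fin m) K) :
    (a + b) ^ (p - 1) * th j (a + b) = a ^ (p - 1) * th j a + b ^ (p - 1) * th j b +
      th j (wit p a b) := by
  have hp := (Fact.out : p.Prime)
  have h1 : th j (wit p a b) = ∑ i ∈ Finset.Ico 1 p,
      (((p - 1).choose (i - 1) : ℕ) : MvPolynomial (Fin m) K) * (a ^ (i - 1) * b ^ (p - i)) *
        th j a + ∑ i ∈ Finset.Ico 1 p,
      (((p - 1).choose i : ℕ) : MvPolynomial (Fin m) K) * (a ^ i * b ^ (p - 1 - i)) * th j b := by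
    unfold wit
    rw [th_sum, ← Finset.sum_add_distrib]
    refine Finset.sum_congr rfl fun i hi => ?_
    rw [Finset.mem_Ico] at hi
    have hc : ∀ (n : ℕ) (f : MvPolynomial (Fin m) K), th j ((n : MvPolynomial (Fin m) K) * f)
        = n * th j f := by
      intro n f
      rw [th_mul]
      have : th j (n : MvPolynomial (Fin m) K) = 0 := by
        unfold th
        rw [Derivation.map_natCast, mul_zero]
      rw [this, mul_zero, add_zero]
    rw [hc, th_mul, th_pow, th_pow, ← choose_div p i hi.1 hi.2, ← choose_div' p i hi.1 hi.2]
    have : p - i - 1 = p - 1 - i := by omega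
    rw [this]
    push_cast
    ring
  have h2 : ∑ i ∈ Finset.Ico 1 p,
      (((p - 1).choose (i - 1) : ℕ) : MvPolynomial (Fin m) K) * (a ^ (i - 1) * b ^ (p - i)) *
        th j a = ((a + b) ^ (p - 1) - a ^ (p - 1)) * th j a := by
    rw [← Finset.sum_mul]
    congr 1
    rw [add_pow, Finset.sum_Ico_eq_sum_range, Finset.sum_range_succ]
    rw [show p - 1 - (p - 1) = 0 by omega, Nat.choose_self]
    simp only [pow_zero, mul_one, Nat.cast_one, add_sub_cancel_right]
    refine Finset.sum_congr rfl fun i hi => ?_
    rw [Finset.mem_range] at hi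
    rw [show 1 + i - 1 = i by omega, show p - (1 + i) = p - 1 - i by omega]
    ring
  have h3 : ∑ i ∈ Finset.Ico 1 p,
      (((p - 1).choose i : ℕ) : MvPolynomial (Fin m) K) * (a ^ i * b ^ (p - 1 - i)) * th j b
        = ((a + b) ^ (p - 1) - b ^ (p - 1)) * th j b := by
    rw [← Finset.sum_mul]
    congr 1
    rw [add_pow, Finset.range_eq_Ico, show p - 1 + 1 = p by have := hp.pos; omega,
      Finset.sum_eq_sum_Ico_succ_bot hp.pos]
    simp only [pow_zero, one_mul, Nat.sub_zero, Nat.choose_zero_right, Nat.cast_one, mul_one,
      zero_add, add_sub_cancel_left]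
    refine Finset.sum_congr rfl fun i hi => ?_
    ring
  rw [h1, h2, h3, th_add]
  ring

theorem exists_W (y : MvPolynomial (Fin m) K) :
    ∃ W : MvPolynomial (Fin m) K, ∀ j, y ^ (p - 1) * th j y = (th j y) ^ p + th j W := by
  have hp := (Fact.out : p.Prime)
  induction y using MvPolynomial.induction_on' with
  | monomial u a =>
    refine ⟨0, fun j => ?_⟩
    have h0 : th j (0 : MvPolynomial (Fin m) K) = 0 := by unfold th; simp
    have h : th j (monomial u a) = ((u j : ℕ) : MvPolynomial (Fin m) K) * monomial u a := by
      have : monomial u a = a • monomial u (1 : K) := by rw [smul_monomial, smul_eq_mul, mul_one]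
      rw [this, th_smul, th_monomial, mul_smul_comm]
      congr 2
    rw [h, h0, add_zero, mul_pow]
    have h2 : ((u j : ℕ) : MvPolynomial (Fin m) K) ^ p = (u j : ℕ) := by
      have := map_natCast (frobenius (MvPolynomial (Fin m) K) p) (u j)
      rwa [frobenius_def] at this
    rw [h2]
    calc monomial u a ^ (p - 1) * ((u j : MvPolynomial (Fin m) K) * monomial u a)
        = (u j : MvPolynomial (Fin m) K) * (monomial u a ^ (p - 1) * monomial u a) := by ring
      _ = _ := by rw [← pow_succ, Nat.sub_add_cancel hp.pos]
  | add f g hf hg =>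
    obtain ⟨W1, h1⟩ := hf
    obtain ⟨W2, h2⟩ := hg
    refine ⟨W1 + W2 + wit p f g, fun j => ?_⟩
    rw [th_wit, h1, h2, th_add, th_add, th_add, add_pow_char]
    ring

/-- rows whose entries are `p`-th powers are closed -/
theorem pow_row_closed (f : Fin m → MvPolynomial (Fin m) K) :
    (fun j => f j ^ p) ∈ closedRow K m := by
  classical
  have h1 : ∀ (g : MvPolynomial (Fin m) K) (l : Fin m),
      (Pi.single l (g ^ p) : Row K m) ∈ closedRow K m := by
    intro g l
    induction g using MvPolynomial.induction_on' with
    | monomial u a =>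
      apply Submodule.subset_span
      refine ⟨p • u, Pi.single l (a ^ p), ?_, ?_⟩
      · intro j s
        have : ∀ i, (((p • u) i : ℕ) : K) = 0 := by
          intro i
          rw [Finsupp.smul_apply, smul_eq_mul, Nat.cast_mul, CharP.cast_eq_zero, zero_mul]
        rw [this, this, mul_zero, mul_zero]
      · funext j
        rw [monomial_pow]
        by_cases hj : j = l
        · subst hj; simp
        · simp [hj]
    | add f g hf hg =>
      rw [add_pow_char, Pi.single_add]
      exact add_mem hf hg
  have h2 : (fun j => f j ^ p) = ∑ l, (Pi.single l (f l ^ p) : Row K m) := by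
    rw [Finset.univ_sum_single]
  rw [h2]
  exact sum_mem fun l _ => h1 (f l) l

/-- `p`-th powers times exact rows are exact -/
theorem pow_mul_th (F g : MvPolynomial (Fin m) K) (j : Fin m) :
    F ^ p * th j g = th j (F ^ p * g) := by
  rw [th_mul, th_pow_p, mul_zero, add_zero]

theorem coeff_pow_p (g : MvPolynomial (Fin m) K) (b : Fin m →₀ ℕ) :
    coeff (p • b) (g ^ p) = (coeff b g) ^ p := by
  have hp := (Fact.out : p.Prime)
  induction g using MvPolynomial.induction_on' with
  | monomial u a =>
    rw [monomial_pow, coeff_monomial, coeff_monomial]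
    by_cases h : u = b
    · subst h; simp
    · rw [if_neg h, zero_pow hp.ne_zero, if_neg]
      intro h2
      apply h
      ext i
      have := DFunLike.congr_fun h2 i
      simp only [Finsupp.smul_apply, smul_eq_mul] at this
      exact Nat.eq_of_mul_eq_mul_left hp.pos this
  | add f g hf hg => rw [add_pow_char, coeff_add, coeff_add, hf, hg, add_pow_char]

/-- the Cartier step -/
theorem cartier_step (hm : 0 < m) (y : Fin m → MvPolynomial (Fin m) K)
    (F : MvPolynomial (Fin m) K) (b : Fin m →₀ ℕ) :
    coeff (p • b) (F ^ p * (∏ i, y i ^ (p - 1)) * jac y) = (coeff b (F * jac y)) ^ p := by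
  classical
  have hq : ∀ j, (((p • b) j : ℕ) : K) = 0 := by
    intro j
    rw [Finsupp.smul_apply, smul_eq_mul, Nat.cast_mul, CharP.cast_eq_zero, zero_mul]
  let k0 : Fin m := ⟨0, hm⟩
  let G : Fin m → MvPolynomial (Fin m) K := fun i => if i = k0 then F else 1
  have hG : ∏ i, G i = F := by
    show ∏ i, (if i = k0 then F else 1) = F
    rw [Finset.prod_ite_eq' Finset.univ k0 (fun _ => F), if_pos (Finset.mem_univ _)]
  let r : Fin m → Row K m := fun i j => (G i ^ p * y i ^ (p - 1)) * th j (y i)
  let s : Fin m → Row K m := fun i j => (G i * th j (y i)) ^ p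
  choose W hW using fun i => exists_W p (y i)
  have hrs : ∀ i, r i = s i + fun j => th j (G i ^ p * W i) := by
    intro i
    funext j
    show (G i ^ p * y i ^ (p - 1)) * th j (y i) = (G i * th j (y i)) ^ p + th j (G i ^ p * W i)
    rw [← pow_mul_th, mul_pow, mul_assoc, hW, mul_add]
  have hs : ∀ i, s i ∈ closedRow K m := fun i => pow_row_closed p _
  have hr : ∀ i, r i ∈ closedRow K m := by
    intro i
    rw [hrs i]
    exact add_mem (hs i) (Submodule.span_mono exactGen_sub (th_mem _))
  have h1 := replace (p • b) hq r s hr hs (fun i => ⟨_, hrs i⟩)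
  rw [cd_apply, cd_apply] at h1
  have h2 : Matrix.of r = Matrix.of fun i j => (G i ^ p * y i ^ (p - 1)) * jm y i j := rfl
  rw [h2, Matrix.det_mul_column] at h1
  have h3 : (∏ i, G i ^ p * y i ^ (p - 1)) = F ^ p * ∏ i, y i ^ (p - 1) := by
    rw [Finset.prod_mul_distrib, Finset.prod_pow, hG]
  rw [h3] at h1
  have h4 : Matrix.of s = (Matrix.of fun i j => G i * jm y i j).map (frobenius _ p) := by
    funext i j
    rw [Matrix.map_apply, frobenius_def]
    rfl
  rw [h4, ← RingHom.mapMatrix_apply, ← RingHom.map_det, Matrix.det_mul_column, hG,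
    frobenius_def, coeff_pow_p] at h1
  exact h1

theorem stokes' (k : ℕ) (hm : 0 < m) (g : Fin m → MvPolynomial (Fin m) K) :
    coeff (pp m (p ^ (k + 1))) (jac g) = 0 := by
  have h : ∀ j, ((pp m (p ^ (k + 1)) j : ℕ) : K) = 0 := by
    intro j
    show ((p ^ (k + 1) : ℕ) : K) = 0
    rw [Nat.cast_pow, CharP.cast_eq_zero, zero_pow (Nat.succ_ne_zero k)]
  have := det_zero (pp m (p ^ (k + 1))) h ⟨0, hm⟩ (fun i j => th j (g i)) (g ⟨0, hm⟩) rfl
    (fun i => Submodule.span_mono exactGen_sub (th_mem _))
  exact this

/-- The coefficient of `(x_0 ⋯ x_{m-1})^{p^k-1}` of `y^e dy_0 ⋯ dy_{m-1}` vanishes unless all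
`e_i + 1` are divisible by `p^k`. -/
theorem coeff_zero_of (hm : 0 < m) (k : ℕ) : ∀ (e : Fin m → ℕ) (y : Fin m → MvPolynomial (Fin m) K),
    (∃ i, ¬ p ^ k ∣ e i + 1) → coeff (pp m (p ^ k)) ((∏ i, y i ^ e i) * jac y) = 0 := by
  classical
  have hp := (Fact.out : p.Prime)
  induction k with
  | zero => intro e y ⟨i, hi⟩; exact absurd (by simp) hi
  | succ k ih =>
    intro e y ⟨i, hi⟩
    by_cases hall : ∀ l, p ∣ e l + 1
    · choose c hc using hall
      have hc1 : ∀ l, 1 ≤ c l := by
        intro l
        by_contra h
        have : c l = 0 := by omega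
        have h2 := hc l
        rw [this] at h2
        omega
      have he : ∀ l, e l = p * (c l - 1) + (p - 1) := by
        intro l
        have h1 := hc l
        have h2 := hc1 l
        obtain ⟨c', hc'⟩ : ∃ c', c l = c' + 1 := ⟨c l - 1, by omega⟩
        rw [hc'] at h1 ⊢
        have h3 := hp.pos
        rw [Nat.add_sub_cancel]
        rw [mul_add, mul_one] at h1
        omega
      have h1 : (∏ l, y l ^ e l) = (∏ l, y l ^ (c l - 1)) ^ p * ∏ l, y l ^ (p - 1) := by
        rw [← Finset.prod_pow, ← Finset.prod_mul_distrib]
        refine Finset.prod_congr rfl fun l _ => ?_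
        rw [he l, pow_add, ← pow_mul, mul_comm p]
      have h2 : pp m (p ^ (k + 1)) = p • pp m (p ^ k) := by
        ext j
        show p ^ (k + 1) = p * p ^ k
        rw [pow_succ, mul_comm]
      rw [h1, h2, cartier_step p hm, ih _ y, zero_pow hp.ne_zero]
      refine ⟨i, fun h => hi ?_⟩
      have h3 := hc1 i
      rw [Nat.sub_add_cancel h3] at h
      rw [hc i, pow_succ, mul_comm]
      exact Nat.mul_dvd_mul_left p h
    · push Not at hall
      obtain ⟨l, hl⟩ := hall
      have hne : ((e l + 1 : ℕ) : K) ≠ 0 := by
        intro h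
        exact hl ((CharP.cast_eq_zero_iff K p _).mp h)
      -- the tuple with `y_l` replaced by the product
      let z : MvPolynomial (Fin m) K := (∏ i ∈ Finset.univ.erase l, y i ^ e i) * y l ^ (e l + 1)
      have key : jac (Function.update y l z)
          = C ((e l + 1 : ℕ) : K) * ((∏ i, y i ^ e i) * jac y) := by
        have h5 : (fun j => th j z) = ∑ i, (if i = l then C ((e l + 1 : ℕ) : K) *
            ∏ i, y i ^ e i else y l ^ (e l + 1) * ((∏ t ∈ (Finset.univ.erase l).erase i,
            y t ^ e t) * ((e i : MvPolynomial (Fin m) K) * y i ^ (e i - 1)))) • (jm y) i := by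
          funext j
          rw [Finset.sum_apply]
          simp only [Pi.smul_apply, smul_eq_mul, jm]
          rw [← Finset.add_sum_erase _ _ (Finset.mem_univ l), if_pos rfl]
          have h6 : th j (∏ i ∈ Finset.univ.erase l, y i ^ e i) = ∑ i ∈ Finset.univ.erase l,
              (∏ t ∈ (Finset.univ.erase l).erase i, y t ^ e t) * th j (y i ^ e i) :=
            th_prod j _ _
          have h7 : th j z = (∏ i ∈ Finset.univ.erase l, y i ^ e i) * th j (y l ^ (e l + 1)) +
              y l ^ (e l + 1) * th j (∏ i ∈ Finset.univ.erase l, y i ^ e i) := th_mul j _ _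
          rw [h7, h6, th_pow, Finset.mul_sum]
          congr 1
          · rw [← Finset.prod_erase_mul _ _ (Finset.mem_univ l), Nat.add_sub_cancel,
              map_natCast]
            ring
          · refine Finset.sum_congr rfl fun i hi => ?_
            rw [if_neg (Finset.ne_of_mem_erase hi), th_pow]
            ring
        unfold jac
        rw [jm_update, h5, Matrix.det_updateRow_sum, if_pos rfl, smul_eq_mul, mul_assoc]
      have h8 := stokes' (K := K) p k hm (Function.update y l z)
      rw [key, coeff_C_mul] at h8
      exact (mul_eq_zero.mp h8).resolve_left hne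

end

end Pool.Agent.H50R3.Cartier
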