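import Mathlib

/-!
# Almost-solutions of `a^x + b^y = lam * c^z` for typical `lam`
-/

open MeasureTheory Set Filter Topology
open scoped ENNReal NNReal

namespace Pool.Agent.H50R3.MetricFC

/-- The Hausdorff-Cantelli lemma for a countable family of sets. -/
theorem dimH_limsup_le {P : Type*} [Countable P] (I : P → Set ℝ) {s : ℝ≥0} (hs : 0 < s)
    (h : ∑' p, (Metric.ediam (I p)) ^ (s : ℝ) ≠ ∞) :
    dimH {x : ℝ | {p | x ∈ I p}.Infinite} ≤ s := by
  apply dimH_le_of_hausdorffMeasure_ne_top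
  have key : μH[(s : ℝ)] {x : ℝ | {p | x ∈ I p}.Infinite} ≤ 0 := by
    have ht := ENNReal.tendsto_tsum_compl_atTop_zero h
    have hs' : (0 : ℝ) < s := hs
    have h1 := Measure.hausdorffMeasure_le_liminf_tsum (β := Finset P)
      (ι := fun F => {p // p ∉ F}) (s : ℝ) {x : ℝ | {p | x ∈ I p}.Infinite} (l := atTop)
      (fun F => (∑' b : {p // p ∉ F}, (Metric.ediam (I b)) ^ (s : ℝ)) ^ (1 / (s : ℝ)))
      (by
        have := ht.ennrpow_const (1 / (s : ℝ))
        rwa [ENNReal.zero_rpow_of_pos (by positivity)] at this)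
      (fun F p => I p)
      (Eventually.of_forall fun F i => by
        calc Metric.ediam (I i) = ((Metric.ediam (I i)) ^ (s : ℝ)) ^ (1 / (s : ℝ)) := by
              rw [← ENNReal.rpow_mul, mul_one_div_cancel hs'.ne', ENNReal.rpow_one]
          _ ≤ _ := ENNReal.rpow_le_rpow (ENNReal.le_tsum i) (by positivity))
      (Eventually.of_forall fun F x hx => by
        simp only [Set.mem_ofPred_eq] at hx
        obtain ⟨p, hp, hpF⟩ := hx.exists_notMem_finset F
        exact mem_iUnion.2 ⟨⟨p, hpF⟩, hp⟩)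
    rw [ht.liminf_eq] at h1
    exact h1
  exact (lt_of_le_of_lt key ENNReal.zero_lt_top).ne

/-- Data for one perfect power: `none` is the value `1`, `some (a, x)` is `(a+2)^(x+1)`. -/
abbrev D := Option (ℕ × ℕ)

/-- The value of a datum. -/
def val : D → ℕ
  | none => 1
  | some p => (p.1 + 2) ^ (p.2 + 1)

/-- The reciprocal of the exponent (zero for the value `1`). -/
noncomputable def rc : D → ℝ
  | none => 0
  | some p => 1 / ((p.2 : ℝ) + 1)

/-- The weight. -/
noncomputable def g (η : ℝ) (d : D) : ℝ := (val d : ℝ) ^ (-(rc d + η))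

theorem one_le_val (d : D) : (1 : ℝ) ≤ val d := by
  rcases d with _ | p
  · simp [val]
  · have : 1 ≤ val (some p) := Nat.one_le_pow _ _ (by omega)
    exact_mod_cast this

theorem rc_nonneg (d : D) : 0 ≤ rc d := by
  rcases d with _ | p
  · simp [rc]
  · simp only [rc]; positivity

theorem rc_le_one (d : D) : rc d ≤ 1 := by
  rcases d with _ | p
  · simp [rc]
  · simp only [rc]
    rw [div_le_one (by positivity)]
    have : (0 : ℝ) ≤ p.2 := by positivity
    linarith

theorem g_nonneg (η : ℝ) (d : D) : 0 ≤ g η d :=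
  Real.rpow_nonneg (by positivity) _

theorem summable_g {η : ℝ} (hη : 0 < η) : Summable (g η) := by
  have h1 : Summable (fun p : ℕ × ℕ => g η (some p)) := by
    have hA : Summable (fun a : ℕ => ((a : ℝ) + 2) ^ (-(1 + η / 2))) := by
      have := (summable_nat_add_iff 2).2 (Real.summable_nat_rpow.2 (show -(1 + η / 2) < -1 by linarith))
      simpa using this
    have hB : Summable (fun x : ℕ => (((2 : ℝ) ^ (-(η / 2))) ^ (x + 1))) := by
      rw [summable_nat_add_iff (f := fun x : ℕ => ((2 : ℝ) ^ (-(η / 2))) ^ x) 1]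
      exact summable_geometric_of_lt_one (by positivity)
        (Real.rpow_lt_one_of_one_lt_of_neg (by norm_num) (by linarith))
    have hAB := hA.mul_of_nonneg hB (fun a => by positivity) (fun x => by positivity)
    refine Summable.of_nonneg_of_le (fun p => g_nonneg η _) (fun p => ?_) hAB
    obtain ⟨a, x⟩ := p
    have ha : (2 : ℝ) ≤ (a : ℝ) + 2 := by
      have : (0 : ℝ) ≤ a := by positivity
      linarith
    have e1 : g η (some (a, x)) = ((a : ℝ) + 2) ^ (-(1 + η * ((x : ℝ) + 1))) := by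
      simp only [g, val, rc]
      push_cast
      rw [← Real.rpow_natCast, ← Real.rpow_mul (by positivity)]
      congr 1
      push_cast
      field_simp
    rw [e1]
    have e2 : ((2 : ℝ) ^ (-(η / 2))) ^ (x + 1) = (2 : ℝ) ^ (-(η / 2) * ((x : ℝ) + 1)) := by
      rw [← Real.rpow_natCast, ← Real.rpow_mul (by norm_num)]
      push_cast
      rfl
    have e3 : ((a : ℝ) + 2) ^ (-(η / 2) * ((x : ℝ) + 1)) ≤ (2 : ℝ) ^ (-(η / 2) * ((x : ℝ) + 1)) := by
      apply Real.rpow_le_rpow_of_nonpos (by norm_num) ha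
      have : 0 ≤ (η / 2) * ((x : ℝ) + 1) := by positivity
      linarith
    simp only
    rw [e2]
    calc ((a : ℝ) + 2) ^ (-(1 + η * ((x : ℝ) + 1)))
        ≤ ((a : ℝ) + 2) ^ (-(1 + η / 2) + -(η / 2) * ((x : ℝ) + 1)) := by
          apply Real.rpow_le_rpow_of_exponent_le (by linarith)
          have : 0 ≤ η * (x : ℝ) := by positivity
          linarith
      _ = ((a : ℝ) + 2) ^ (-(1 + η / 2)) * ((a : ℝ) + 2) ^ (-(η / 2) * ((x : ℝ) + 1)) :=
          Real.rpow_add (by linarith) _ _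
      _ ≤ _ := mul_le_mul_of_nonneg_left e3 (by positivity)
  have h2 : Summable (fun d : D => if d = none then (0 : ℝ) else g η d) := by
    rw [← (Option.some_injective (ℕ × ℕ)).summable_iff]
    · simpa [Function.comp_def] using h1
    · intro x hx
      rcases x with _ | p
      · simp
      · exact absurd ⟨p, rfl⟩ hx
  refine h2.congr_cofinite ?_
  have : ({none} : Set D)ᶜ ∈ (cofinite : Filter D) := (Set.finite_singleton _).compl_mem_cofinite
  filter_upwards [this] with d hd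
  have : d ≠ none := by simpa using hd
  simp [this]

theorem young {θ C : ℝ} (h0 : 0 ≤ θ) (h1 : θ < 1) (hC : 1 ≤ C) :
    ∃ K : ℝ, 0 ≤ K ∧ ∀ S : ℝ, 1 ≤ S → C * S ^ θ ≤ S / 2 + K := by
  set S0 : ℝ := (2 * C) ^ (1 / (1 - θ)) with hS0
  have hS0p : 0 ≤ S0 := by positivity
  refine ⟨C * S0 ^ θ, by positivity, fun S hS => ?_⟩
  rcases le_total S S0 with h | h
  · have h2 : S ^ θ ≤ S0 ^ θ := Real.rpow_le_rpow (by linarith) h h0
    have := mul_le_mul_of_nonneg_left h2 (show 0 ≤ C by linarith)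
    linarith
  · have h2 : 2 * C ≤ S ^ (1 - θ) := by
      calc 2 * C = S0 ^ (1 - θ) := by
            rw [hS0, ← Real.rpow_mul (by linarith), one_div_mul_cancel (by linarith), Real.rpow_one]
        _ ≤ S ^ (1 - θ) := Real.rpow_le_rpow hS0p h (by linarith)
    have h3 : S ^ θ * S ^ (1 - θ) = S := by
      rw [← Real.rpow_add (by linarith)]; simp
    have h4 : 0 < S ^ θ := Real.rpow_pos_of_pos (by linarith) _
    have h5 : 0 ≤ C * S0 ^ θ := by positivity
    have h6 := mul_le_mul_of_nonneg_left h2 h4.le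
    nlinarith

/-- Sum of the three reciprocals of the exponents. -/
noncomputable def rs (p : D × D × D) : ℝ := rc p.1 + rc p.2.1 + rc p.2.2

theorem rs_nonneg (p : D × D × D) : 0 ≤ rs p :=
  add_nonneg (add_nonneg (rc_nonneg _) (rc_nonneg _)) (rc_nonneg _)

/-- The coefficients `lam` in `[1/L, L]` for which the datum `p` is an almost-solution. -/
def I (s η C L : ℝ) (p : D × D × D) : Set ℝ :=
  {lam | lam ≤ L ∧ 1 ≤ L * lam ∧
    |((val p.1 : ℝ) + val p.2.1) - lam * val p.2.2| ≤
      C * ((val p.1 : ℝ) + val p.2.1) ^ (1 - (rs p + 3 * η) / s)}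

theorem diam_bound {C L η s : ℝ} (hC : 1 ≤ C) (hL : 1 ≤ L)
    (hη : 0 < η) (hs0 : 0 < s) :
    ∃ K : ℝ, 0 ≤ K ∧ ∀ p, (Metric.ediam (I s η C L p)) ^ s ≤
      ENNReal.ofReal (K * (g η p.1 * (g η p.2.1 * g η p.2.2))) := by
  have hθ1 : max 0 (1 - 3 * η / s) < 1 := by
    apply max_lt (by norm_num)
    have : 0 < 3 * η / s := by positivity
    linarith
  obtain ⟨K', hK', hy⟩ := young (le_max_left _ _) hθ1 hC
  set K1 : ℝ := 2 * L + 2 * K' with hK1
  set M : ℝ := L * (1 + C) with hM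
  have hK1p : 0 < K1 := by linarith
  have hM1 : 1 ≤ M := by
    have : 1 * 1 ≤ L * (1 + C) := mul_le_mul hL (by linarith) (by norm_num) (by linarith)
    linarith
  refine ⟨(2 * C * K1) ^ s * M ^ (1 + η), by positivity, ?_⟩
  rintro ⟨d, e, f⟩
  rcases (I s η C L (d, e, f)).eq_empty_or_nonempty with hE | ⟨lam, hlam⟩
  · rw [hE, Metric.ediam_empty, ENNReal.zero_rpow_of_pos hs0]
    exact zero_le
  set U : ℝ := (val d : ℝ) with hU
  set V : ℝ := (val e : ℝ) with hV
  set W : ℝ := (val f : ℝ) with hW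
  have hU1 : 1 ≤ U := one_le_val d
  have hV1 : 1 ≤ V := one_le_val e
  have hW1 : 1 ≤ W := one_le_val f
  set S : ℝ := U + V with hS
  have hS1 : 1 ≤ S := by linarith
  set q : ℝ := (rs (d, e, f) + 3 * η) / s with hq
  have hqs : q * s = rs (d, e, f) + 3 * η := by rw [hq]; field_simp
  have hrs := rs_nonneg (d, e, f)
  have hq1 : 3 * η / s ≤ q := by
    rw [hq]; gcongr; linarith
  obtain ⟨hl1, hl2, hl3⟩ := hlam
  simp only [] at hl3
  rw [← hU, ← hV, ← hW, ← hS, ← hq] at hl3
  have hlpos : 0 < lam := by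
    by_contra hcon
    push Not at hcon
    nlinarith
  have hSθ' : S ^ (1 - q) ≤ S ^ (max 0 (1 - 3 * η / s)) :=
    Real.rpow_le_rpow_of_exponent_le hS1 (le_max_of_le_right (by linarith))
  have hSθ : S ^ (1 - q) ≤ S := by
    calc S ^ (1 - q) ≤ S ^ (1 : ℝ) := Real.rpow_le_rpow_of_exponent_le hS1 (by
          have : 0 < 3 * η / s := by positivity
          linarith)
      _ = S := Real.rpow_one S
  have hSθ0 : 0 < S ^ (1 - q) := Real.rpow_pos_of_pos (by linarith) _
  have habs := abs_le.1 hl3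
  have hWS : S ≤ K1 * W := by
    have hy1 := hy S hS1
    have hy2 : C * S ^ (1 - q) ≤ C * S ^ (max 0 (1 - 3 * η / s)) :=
      mul_le_mul_of_nonneg_left hSθ' (by linarith)
    have h2 : lam * W ≤ L * W := mul_le_mul_of_nonneg_right hl1 (by linarith)
    have h3 : K' ≤ K' * W := le_mul_of_one_le_right hK' hW1
    nlinarith [habs.2]
  have hWM : W ≤ M * S := by
    have h2 : lam * W ≤ S + C * S ^ (1 - q) := by linarith [habs.1]
    have h3 : C * S ^ (1 - q) ≤ C * S := mul_le_mul_of_nonneg_left hSθ (by linarith)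
    have h4 : W ≤ L * (lam * W) := by
      have := mul_le_mul_of_nonneg_right hl2 (show 0 ≤ W by linarith)
      nlinarith
    have h5 : L * (lam * W) ≤ L * (S + C * S) :=
      mul_le_mul_of_nonneg_left (by linarith) (by linarith)
    calc W ≤ L * (S + C * S) := h4.trans h5
      _ = M * S := by rw [hM]; ring
  -- the diameter
  have hdiam : Metric.ediam (I s η C L (d, e, f)) ≤ ENNReal.ofReal (2 * C * K1 * S ^ (-q)) := by
    apply Metric.ediam_le_of_forall_dist_le
    rintro x ⟨-, -, hx⟩ y ⟨-, -, hy'⟩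
    simp only [] at hx hy'
    rw [← hU, ← hV, ← hW, ← hS, ← hq] at hx hy'
    have hx' := abs_le.1 hx
    have hy'' := abs_le.1 hy'
    rw [Real.dist_eq]
    have h2 : |x - y| * W ≤ 2 * C * S ^ (1 - q) := by
      have e0 : |x - y| * W = |(x - y) * W| := by
        rw [abs_mul, abs_of_pos (show 0 < W by linarith)]
      rw [e0, abs_le]
      constructor <;> nlinarith
    have h3 : S ^ (1 - q) = S * S ^ (-q) := by
      nth_rewrite 2 [← Real.rpow_one S]
      rw [← Real.rpow_add (by linarith)]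
      congr 1
    have h4 : 0 < S ^ (-q) := Real.rpow_pos_of_pos (by linarith) _
    have h5 : |x - y| * W ≤ (2 * C * K1 * S ^ (-q)) * W := by
      calc |x - y| * W ≤ 2 * C * (S * S ^ (-q)) := by rw [← h3]; exact h2
        _ = (2 * C * S ^ (-q)) * S := by ring
        _ ≤ (2 * C * S ^ (-q)) * (K1 * W) :=
            mul_le_mul_of_nonneg_left hWS (by positivity)
        _ = _ := by ring
    exact le_of_mul_le_mul_right h5 (by linarith)
  calc (Metric.ediam (I s η C L (d, e, f))) ^ s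
      ≤ (ENNReal.ofReal (2 * C * K1 * S ^ (-q))) ^ s := ENNReal.rpow_le_rpow hdiam hs0.le
    _ = ENNReal.ofReal ((2 * C * K1 * S ^ (-q)) ^ s) :=
        ENNReal.ofReal_rpow_of_nonneg (by positivity) hs0.le
    _ ≤ _ := by
        apply ENNReal.ofReal_le_ofReal
        rw [Real.mul_rpow (by positivity) (by positivity), ← Real.rpow_mul (by linarith)]
        have e1 : -q * s = -(rc d + η) + (-(rc e + η) + -(rc f + η)) := by
          have : rs (d, e, f) = rc d + rc e + rc f := rfl
          rw [neg_mul, hqs, this]; ring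
        rw [e1]
        have hM0 : 0 < M := by linarith
        have hWM' : W / M ≤ S := by rw [div_le_iff₀ hM0]; linarith
        have b1 : S ^ (-(rc d + η)) ≤ U ^ (-(rc d + η)) :=
          Real.rpow_le_rpow_of_nonpos (by linarith) (by linarith)
            (by linarith [rc_nonneg d])
        have b2 : S ^ (-(rc e + η)) ≤ V ^ (-(rc e + η)) :=
          Real.rpow_le_rpow_of_nonpos (by linarith) (by linarith)
            (by linarith [rc_nonneg e])
        have b3 : S ^ (-(rc f + η)) ≤ M ^ (1 + η) * W ^ (-(rc f + η)) := by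
          calc S ^ (-(rc f + η)) ≤ (W / M) ^ (-(rc f + η)) :=
                Real.rpow_le_rpow_of_nonpos (by positivity) hWM'
                  (by linarith [rc_nonneg f])
            _ = M ^ (rc f + η) * W ^ (-(rc f + η)) := by
                rw [Real.div_rpow (by linarith) hM0.le, Real.rpow_neg hM0.le]
                field_simp
            _ ≤ _ := by
                apply mul_le_mul_of_nonneg_right _ (by positivity)
                exact Real.rpow_le_rpow_of_exponent_le hM1 (by linarith [rc_le_one f])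
        have b4 : S ^ (-(rc d + η) + (-(rc e + η) + -(rc f + η))) ≤
            M ^ (1 + η) * (g η d * (g η e * g η f)) := by
          calc S ^ (-(rc d + η) + (-(rc e + η) + -(rc f + η)))
              = S ^ (-(rc d + η)) * (S ^ (-(rc e + η)) * S ^ (-(rc f + η))) := by
                rw [Real.rpow_add (by linarith), Real.rpow_add (by linarith)]
            _ ≤ U ^ (-(rc d + η)) * (V ^ (-(rc e + η)) * (M ^ (1 + η) * W ^ (-(rc f + η)))) := by
                gcongr
            _ = _ := by simp only [g]; rw [← hU, ← hV, ← hW]; ring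
        calc (2 * C * K1) ^ s * S ^ (-(rc d + η) + (-(rc e + η) + -(rc f + η)))
            ≤ (2 * C * K1) ^ s * (M ^ (1 + η) * (g η d * (g η e * g η f))) :=
              mul_le_mul_of_nonneg_left b4 (by positivity)
          _ = _ := by ring

theorem dimH_piece {C L η : ℝ} {s : ℝ≥0} (hC : 1 ≤ C) (hL : 1 ≤ L)
    (hη : 0 < η) (hs0 : 0 < s) :
    dimH {x : ℝ | {p | x ∈ I s η C L p}.Infinite} ≤ s := by
  apply dimH_limsup_le _ hs0
  obtain ⟨K, hK, hb⟩ := diam_bound hC hL hη (show (0 : ℝ) < s from hs0)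
  have hg := summable_g hη
  have hgg : Summable (fun p : D × D => g η p.1 * g η p.2) :=
    hg.mul_of_nonneg hg (g_nonneg η) (g_nonneg η)
  have hggg : Summable (fun p : D × D × D => g η p.1 * (g η p.2.1 * g η p.2.2)) :=
    hg.mul_of_nonneg hgg (g_nonneg η) (fun p => mul_nonneg (g_nonneg η _) (g_nonneg η _))
  exact ne_top_of_le_ne_top (hggg.mul_left K).tsum_ofReal_ne_top (ENNReal.tsum_le_tsum hb)

theorem exists_datum (a x : ℕ) (ha : 0 < a) (hx : 0 < x) :
    ∃ d : D, val d = a ^ x ∧ rc d ≤ 1 / (x : ℝ) := by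
  rcases Nat.lt_or_ge a 2 with h | h
  · have : a = 1 := by omega
    subst this
    exact ⟨none, by simp [val], by simp only [rc]; positivity⟩
  · refine ⟨some (a - 2, x - 1), ?_, ?_⟩
    · simp only [val]
      congr 1 <;> omega
    · simp only [rc]
      have : ((x - 1 : ℕ) : ℝ) + 1 = x := by
        have h2 : (x - 1) + 1 = x := by omega
        exact_mod_cast h2
      rw [this]

/-- Value triples `(a^x, b^y, c^z)` of perfect powers that solve `a^x + b^y = lam * c^z`
up to an error `C * (a^x + b^y) ^ (1 - (1/x + 1/y + 1/z + ε) / s)`. -/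
def Near (s ε C lam : ℝ) : Set (ℕ × ℕ × ℕ) :=
  {t | ∃ a b c x y z : ℕ, 0 < a ∧ 0 < b ∧ 0 < c ∧ 0 < x ∧ 0 < y ∧ 0 < z ∧
    t = (a ^ x, b ^ y, c ^ z) ∧
    |(a : ℝ) ^ x + (b : ℝ) ^ y - lam * (c : ℝ) ^ z| ≤
      C * ((a : ℝ) ^ x + (b : ℝ) ^ y) ^ (1 - (1 / (x : ℝ) + 1 / y + 1 / z + ε) / s)}

theorem dimH_near (s ε : ℝ) (hs : 0 < s) (hε : 0 < ε) :
    dimH {lam : ℝ | 0 < lam ∧ ∃ C : ℝ, (Near s ε C lam).Infinite} ≤ ENNReal.ofReal s := by
  have hsub : {lam : ℝ | 0 < lam ∧ ∃ C : ℝ, (Near s ε C lam).Infinite} ⊆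
      ⋃ n : ℕ, {x : ℝ | {p | x ∈ I s (ε / 3) ((n : ℝ) + 1) ((n : ℝ) + 1) p}.Infinite} := by
    rintro lam ⟨hl, C, hinf⟩
    obtain ⟨n, hn⟩ := exists_nat_ge (max C (max lam lam⁻¹))
    have hn1 : C ≤ n := (le_max_left _ _).trans hn
    have hn2 : lam ≤ n := ((le_max_left _ _).trans (le_max_right _ _)).trans hn
    have hn3 : lam⁻¹ ≤ n := ((le_max_right _ _).trans (le_max_right _ _)).trans hn
    refine mem_iUnion.2 ⟨n, ?_⟩
    refine Set.Infinite.of_image (fun p : D × D × D => (val p.1, val p.2.1, val p.2.2)) ?_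
    refine hinf.mono ?_
    rintro t ⟨a, b, c, x, y, z, ha, hb, hc, hx, hy, hz, rfl, hle⟩
    obtain ⟨d, hd, hd'⟩ := exists_datum a x ha hx
    obtain ⟨e, he, he'⟩ := exists_datum b y hb hy
    obtain ⟨f, hf, hf'⟩ := exists_datum c z hc hz
    refine ⟨(d, e, f), ⟨by linarith, ?_, ?_⟩, by simp only [hd, he, hf]⟩
    · have : lam⁻¹ * lam ≤ ((n : ℝ) + 1) * lam :=
        mul_le_mul_of_nonneg_right (by linarith) hl.le
      rwa [inv_mul_cancel₀ hl.ne'] at this
    · simp only [hd, he, hf]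
      push_cast
      refine hle.trans ?_
      have hS1 : 1 ≤ (a : ℝ) ^ x + (b : ℝ) ^ y := by
        have h1 : (1 : ℝ) ≤ (a : ℝ) ^ x := one_le_pow₀ (by exact_mod_cast ha)
        have h2 : (0 : ℝ) ≤ (b : ℝ) ^ y := by positivity
        linarith
      have h3 : ((a : ℝ) ^ x + (b : ℝ) ^ y) ^ (1 - (1 / (x : ℝ) + 1 / y + 1 / z + ε) / s) ≤
          ((a : ℝ) ^ x + (b : ℝ) ^ y) ^ (1 - (rs (d, e, f) + 3 * (ε / 3)) / s) := by
        apply Real.rpow_le_rpow_of_exponent_le hS1
        have : (rs (d, e, f) + 3 * (ε / 3)) / s ≤ (1 / (x : ℝ) + 1 / y + 1 / z + ε) / s := by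
          gcongr ?_ / s
          have : rs (d, e, f) = rc d + rc e + rc f := rfl
          rw [this]; linarith
        linarith
      exact mul_le_mul (by linarith) h3 (by positivity) (by positivity)
  refine (dimH_mono hsub).trans ?_
  rw [dimH_iUnion]
  refine iSup_le fun n => ?_
  have := dimH_piece (C := (n : ℝ) + 1) (L := (n : ℝ) + 1) (η := ε / 3) (s := ⟨s, hs.le⟩)
    (by have : (0 : ℝ) ≤ n := by positivity
        linarith) (by have : (0 : ℝ) ≤ n := by positivity
                      linarith) (by positivity) hs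
  refine this.trans (le_of_eq ?_)
  rw [ENNReal.ofReal, Real.toNNReal_of_nonneg hs.le]
  rfl

theorem sorted_bound {x y z : ℕ} (h1 : x ≤ y) (h2 : y ≤ z) (hx : 0 < x)
    (h : x * y + y * z + z * x < x * y * z) :
    42 * (x * y + y * z + z * x) ≤ 41 * (x * y * z) := by
  rcases (show x = 1 ∨ x = 2 ∨ x = 3 ∨ 4 ≤ x by omega) with rfl | rfl | rfl | hx4
  · nlinarith
  · rcases (show y = 2 ∨ y = 3 ∨ y = 4 ∨ 5 ≤ y by omega) with rfl | rfl | rfl | hy
    · omega
    · omega
    · omega
    · nlinarith [mul_le_mul hy (le_refl z) (by omega) (by omega),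
        mul_le_mul (le_refl y) (hy.trans h2) (by omega) (by omega)]
  · rcases (show y = 3 ∨ 4 ≤ y by omega) with rfl | hy
    · omega
    · nlinarith [mul_le_mul hy (le_refl z) (by omega) (by omega),
        mul_le_mul (le_refl y) (hy.trans h2) (by omega) (by omega)]
  · have a1 : 4 * (y * z) ≤ x * (y * z) := Nat.mul_le_mul_right _ hx4
    have a2 : 4 * (x * z) ≤ y * (x * z) := Nat.mul_le_mul_right _ (hx4.trans h1)
    have a3 : 4 * (x * y) ≤ z * (x * y) := Nat.mul_le_mul_right _ ((hx4.trans h1).trans h2)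
    nlinarith

theorem nat_bound {x y z : ℕ} (hx : 0 < x) (hy : 0 < y) (hz : 0 < z)
    (h : x * y + y * z + z * x < x * y * z) :
    42 * (x * y + y * z + z * x) ≤ 41 * (x * y * z) := by
  rcases le_total x y with h1 | h1 <;> rcases le_total y z with h2 | h2 <;>
    rcases le_total x z with h3 | h3
  · exact sorted_bound h1 h2 hx h
  · exact sorted_bound h1 h2 hx h
  · have := sorted_bound (x := x) (y := z) (z := y) h3 h2 hx (by nlinarith)
    nlinarith
  · have := sorted_bound (x := z) (y := x) (z := y) h3 h1 hz (by nlinarith)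
    nlinarith
  · have := sorted_bound (x := y) (y := x) (z := z) h1 h3 hy (by nlinarith)
    nlinarith
  · have := sorted_bound (x := y) (y := z) (z := x) h2 h3 hy (by nlinarith)
    nlinarith
  · have := sorted_bound (x := z) (y := y) (z := x) h2 h1 hz (by nlinarith)
    nlinarith
  · have := sorted_bound (x := z) (y := y) (z := x) h2 h1 hz (by nlinarith)
    nlinarith

theorem recip_bound {x y z : ℕ} (hx : 0 < x) (hy : 0 < y) (hz : 0 < z)
    (h : 1 / (x : ℝ) + 1 / y + 1 / z < 1) : 1 / (x : ℝ) + 1 / y + 1 / z ≤ 41 / 42 := by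
  have hx' : (0 : ℝ) < x := by exact_mod_cast hx
  have hy' : (0 : ℝ) < y := by exact_mod_cast hy
  have hz' : (0 : ℝ) < z := by exact_mod_cast hz
  have e : 1 / (x : ℝ) + 1 / y + 1 / z = ((x : ℝ) * y + y * z + z * x) / (x * y * z) := by
    field_simp
    ring
  rw [e] at h ⊢
  rw [div_lt_one (by positivity)] at h
  rw [div_le_iff₀ (by positivity)]
  have h' : x * y + y * z + z * x < x * y * z := by exact_mod_cast h
  have := nat_bound hx hy hz h'
  have h'' : (42 : ℝ) * (x * y + y * z + z * x) ≤ 41 * (x * y * z) := by exact_mod_cast this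
  linarith

/-- Value triples of perfect powers with Fermat-Catalan exponents that solve
`a^x + b^y = lam * c^z` up to an error `C * (a^x + b^y) ^ θ`. -/
def FC (θ C lam : ℝ) : Set (ℕ × ℕ × ℕ) :=
  {t | ∃ a b c x y z : ℕ, 0 < a ∧ 0 < b ∧ 0 < c ∧ 0 < x ∧ 0 < y ∧ 0 < z ∧
    1 / (x : ℝ) + 1 / y + 1 / z < 1 ∧ t = (a ^ x, b ^ y, c ^ z) ∧
    |(a : ℝ) ^ x + (b : ℝ) ^ y - lam * (c : ℝ) ^ z| ≤ C * ((a : ℝ) ^ x + (b : ℝ) ^ y) ^ θ}

theorem dimH_FC (θ : ℝ) (hθ1 : θ < 1) :
    dimH {lam : ℝ | 0 < lam ∧ ∃ C : ℝ, (FC θ C lam).Infinite} ≤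
      ENNReal.ofReal (41 / (42 * (1 - θ))) := by
  have h1θ : 0 < 1 - θ := by linarith
  -- for every `ε > 0` the bound with `s = (41/42 + ε) / (1 - θ)`
  have key : ∀ ε : ℝ, 0 < ε → dimH {lam : ℝ | 0 < lam ∧ ∃ C : ℝ, (FC θ C lam).Infinite} ≤
      ENNReal.ofReal ((41 / 42 + ε) / (1 - θ)) := by
    intro ε hε
    refine (dimH_mono ?_).trans (dimH_near ((41 / 42 + ε) / (1 - θ)) ε (by positivity) hε)
    rintro lam ⟨hl, C, hinf⟩
    refine ⟨hl, max C 0, hinf.mono ?_⟩
    rintro t ⟨a, b, c, x, y, z, ha, hb, hc, hx, hy, hz, hr, rfl, hle⟩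
    refine ⟨a, b, c, x, y, z, ha, hb, hc, hx, hy, hz, rfl, hle.trans ?_⟩
    have hS1 : 1 ≤ (a : ℝ) ^ x + (b : ℝ) ^ y := by
      have h1 : (1 : ℝ) ≤ (a : ℝ) ^ x := one_le_pow₀ (by exact_mod_cast ha)
      have h2 : (0 : ℝ) ≤ (b : ℝ) ^ y := by positivity
      linarith
    have hrb := recip_bound hx hy hz hr
    have h3 : ((a : ℝ) ^ x + (b : ℝ) ^ y) ^ θ ≤ ((a : ℝ) ^ x + (b : ℝ) ^ y) ^
        (1 - (1 / (x : ℝ) + 1 / y + 1 / z + ε) / ((41 / 42 + ε) / (1 - θ))) := by
      apply Real.rpow_le_rpow_of_exponent_le hS1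
      have : (1 / (x : ℝ) + 1 / y + 1 / z + ε) / ((41 / 42 + ε) / (1 - θ)) ≤ 1 - θ := by
        rw [div_le_iff₀ (by positivity)]
        rw [mul_div_cancel₀ _ h1θ.ne']
        linarith
      linarith
    exact mul_le_mul (le_max_left _ _) h3 (by positivity) (le_max_right _ _)
  have hcont : Tendsto (fun ε : ℝ => ENNReal.ofReal ((41 / 42 + ε) / (1 - θ))) (𝓝[>] 0)
      (𝓝 (ENNReal.ofReal ((41 / 42 + 0) / (1 - θ)))) := by
    apply ENNReal.tendsto_ofReal
    apply Tendsto.mono_left _ nhdsWithin_le_nhds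
    exact ((continuous_const.add continuous_id).div_const _).tendsto 0
  have hlim := ge_of_tendsto hcont (eventually_mem_nhdsWithin.mono fun ε hε => key ε hε)
  refine hlim.trans (le_of_eq ?_)
  congr 1
  rw [add_zero]
  field_simp

end Pool.Agent.H50R3.MetricFC
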